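import Pool.Agent.H38.NP.Defs

/-!
Internally disjoint odd paths between two vertex sets.
-/

namespace Pool.Agent.H38.Odd

open Pool.Agent.H38.NP

/-- `v` is an internal vertex of the path `p`. -/
def Inner {V : Type} {G : SimpleGraph V} {x y : V} (p : G.Walk x y) (v : V) : Prop :=
  v ∈ p.support ∧ v ≠ x ∧ v ≠ y

/-- There are `k` different, pairwise internally disjoint `(X, Y)`-paths of odd length. -/
def OddPaths {V : Type} (G : SimpleGraph V) (k : ℕ) (X Y : Set V) : Prop :=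
  ∃ (x y : Fin k → V) (p : ∀ i, G.Walk (x i) (y i)),
    (∀ i, (p i).IsPath ∧ Odd (p i).length ∧ x i ∈ X ∧ y i ∈ Y ∧
      ∀ v, Inner (p i) v → v ∉ X ∧ v ∉ Y) ∧
    ∀ i j, i ≠ j → (p i).edgeSet ≠ (p j).edgeSet ∧ ∀ v, ¬ (Inner (p i) v ∧ Inner (p j) v)

/-- Yes-instances `(n, E, k, X, Y)`: `k > 0`, `X` and `Y` list `k` vertices each, and the paths
exist in the graph on `Fin n` with edge list `E`. -/
def OP (p : (ℕ × List (ℕ × ℕ)) × ℕ × List ℕ × List ℕ) : Prop :=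
  0 < p.2.1 ∧ p.2.2.1.Nodup ∧ p.2.2.2.Nodup ∧ p.2.2.1.length = p.2.1 ∧ p.2.2.2.length = p.2.1 ∧
    (∀ v ∈ p.2.2.1 ++ p.2.2.2, v < p.1.1) ∧
    OddPaths (graphOf p.1.1 p.1.2) p.2.1 {v | v.val ∈ p.2.2.1} {v | v.val ∈ p.2.2.2}

end Pool.Agent.H38.Odd
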