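import Pool.Agent.H38.Odd.Red

/-!
Completeness of the reduction and the final theorem.
-/

namespace Pool.Agent.H38.Odd

open Pool.Agent.H38.NP Pool.Agent.H36.Gr

variable {N m : ℕ} {oc : ℕ → ℕ → ℕ → Bool}

def pl (N m q : ℕ) : ℕ := if q < N then 2 * m + 5 else 5

def pf (N m : ℕ) (a c : ℕ → ℕ) (q t : ℕ) : T3 :=
  if t = 0 then (0, q, 0) else if t = 1 then (2, q, 0) else if t + 1 = pl N m q then (3, q, 0)
  else if t = pl N m q then (1, q, 0) else if q < N then (5 - a q, q, t - 2)
  else (4 + a (c (q - N)), c (q - N), 2 * (q - N) + t - 1)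

theorem complete {a c : ℕ → ℕ} (ha : ∀ i, a i < 2) (h : ∀ j < m, c j < N ∧ oc (c j) (a (c j)) j = true) :
    FP (GC (rel N m oc)).Adj (Val N m) (·.1 = 0) (·.1 = 1) (N + m) (fun q => pf N m a c q)
      fun q => pl N m q := by
  refine ⟨fun ⟨q, hq⟩ => ?_, fun ⟨q, hq⟩ ⟨p, hp⟩ hij s t s1 s2 t1 t2 e => ?_⟩
  · have a1 := ha q
    have a2 := ha (c (q - N))
    have a3 : N ≤ q → c (q - N) < N ∧ oc (c (q - N)) (a (c (q - N))) (q - N) = true :=
      fun e => h _ (by omega)
    simp only
    have hl : (q < N ∧ pl N m q = 2 * m + 5) ∨ (N ≤ q ∧ pl N m q = 5) := by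
      unfold pl; split_ifs <;> omega
    refine ⟨by omega, by simp [pf], by simp [pf, show pl N m q ≠ 0 by omega, show pl N m q ≠ 1 by omega],
      fun t ht => ?_, fun t ht => ?_, fun s hs t ht e => ?_, fun t t1 t2 => ?_⟩
    · simp only [pf, Val]; split_ifs <;> simp <;> omega
    · rcases hl with ⟨h1, h2⟩ | ⟨h1, h2⟩
      · simp only [pf, adj_iff, Rel, h2, if_pos h1] at ht ⊢
        split_ifs <;> simp <;> first | omega | contradiction
      · simp only [pf, adj_iff, Rel, h2, if_neg (not_lt.2 h1)] at ht ⊢
        interval_cases t <;> simp [a3 h1, h1]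
        all_goals omega
    · simp only [pf] at e; split_ifs at e <;> simp at e <;> omega
    · simp only [pf]; split_ifs <;> simp <;> omega
  · have hne : q ≠ p := fun e => hij (Fin.ext e)
    have := ha q; have := ha p
    simp only [pf, pl] at e s2 t2
    split_ifs at e s2 t2 <;> simp only [Prod.mk.injEq] at e <;> try omega
    all_goals
      obtain ⟨e1, e2, e3⟩ := e
      first | (rw [← e2] at e1; omega) | (rw [e2] at e1; omega)

def nv (φ : F3) : ℕ := ((List.range (3 * φ.length)).map fun u => (litAt φ u).1).sum + 1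

def occ (φ : F3) (i s k : ℕ) : Bool :=
  (List.range 3).any fun j => decide (litAt φ (3 * k + j) = (i, decide (s = 1)))

def verts (N m : ℕ) : List T3 :=
  (List.range (N + m)).map (fun q => (0, q, 0)) ++ ((List.range (N + m)).map (fun q => (1, q, 0)) ++
    ((List.range 6).product ((List.range (N + m)).product (List.range (2 * m + 2)))).filter
      fun x => decide (2 ≤ x.1 ∧ Val N m x))

theorem mem_verts {x} : x ∈ verts N m ↔ Val N m x := by
  obtain ⟨a, b, c⟩ := x
  simp only [verts, List.mem_append, List.mem_map, List.mem_range, List.mem_filter, List.pair_mem_product,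
    Prod.mk.injEq, decide_eq_true_eq, Val]
  constructor
  · rintro (⟨q, h⟩ | ⟨q, h⟩ | h) <;> omega
  · intro h
    by_cases h0 : a = 0
    · exact .inl ⟨b, by omega⟩
    by_cases h1 : a = 1
    · exact .inr (.inl ⟨b, by omega⟩)
    · exact .inr (.inr (by omega))

theorem nodup_verts : (verts N m).Nodup := by
  refine List.nodup_append.2 ⟨List.nodup_range.map fun _ _ h => by simpa using h,
    List.nodup_append.2 ⟨List.nodup_range.map fun _ _ h => by simpa using h,
      (List.nodup_range.product (List.nodup_range.product List.nodup_range)).filter _, ?_⟩, ?_⟩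
  · simp +contextual [Prod.ext_iff]; omega
  · simp +contextual [Prod.ext_iff, or_imp]; omega

theorem code_tag (v : Fin (verts N m).length) : ((code _ v).1 = 0 ↔ v.val ∈ List.range (N + m)) ∧
    ((code _ v).1 = 1 ↔ v.val ∈ List.range' (N + m) (N + m)) := by
  obtain ⟨v, hv⟩ := v
  simp only [code_eq, verts, List.mem_range, List.mem_range'_1]
  by_cases h1 : v < N + m
  · rw [List.getElem_append_left (by simpa)]; simp [h1]
  rw [List.getElem_append_right (by simpa using h1)]
  by_cases h2 : v < N + m + (N + m)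
  · rw [List.getElem_append_left (by simp; omega)]; simp; omega
  rw [List.getElem_append_right (by simp; omega)]
  have := (List.mem_filter.1 (List.getElem_mem (l := ((List.range 6).product
    ((List.range (N + m)).product (List.range (2 * m + 2)))).filter fun x => decide (2 ≤ x.1 ∧ Val N m x))
    (n := v - (N + m) - (N + m)) (by simp [verts] at hv ⊢; omega))).2
  simp only [decide_eq_true_eq, List.length_map, List.length_range] at this ⊢
  omega

def inst (φ : F3) : (ℕ × List (ℕ × ℕ)) × ℕ × List ℕ × List ℕ :=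
  (mkG (verts (nv φ) φ.length) (rel (nv φ) φ.length (occ φ)), nv φ + φ.length,
    List.range (nv φ + φ.length), List.range' (nv φ + φ.length) (nv φ + φ.length))

theorem pt_inst : PT inst := by
  have : PT nv := by unfold nv; fun_prop
  refine PT.mk (pt_mkG ?_ ?_) (by fun_prop)
  · unfold verts Val; fun_prop
  · unfold rel Rel occ; fun_prop

theorem lt_nv {φ u} (h : u < 3 * φ.length) : (litAt φ u).1 < nv φ :=
  Nat.lt_succ_of_le (List.le_sum_of_mem (List.mem_map.2 ⟨u, List.mem_range.2 h, rfl⟩))

theorem op_nph : NPH (fun _ => True) OP := by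
  refine sat3_nph.reduce inst pt_inst fun φ _ => ⟨trivial, ?_⟩
  have e : OP (inst φ) ↔ OddPaths (RG (verts (nv φ) φ.length) (rel (nv φ) φ.length (occ φ)))
      (nv φ + φ.length) {v | (code _ v).1 = 0} {v | (code _ v).1 = 1} := by
    simp only [(code_tag _).1, (code_tag _).2]
    refine ⟨fun h => h.2.2.2.2.2.2, fun h => ⟨by simp [inst, nv], List.nodup_range, List.nodup_range',
      by simp [inst], by simp [inst], ?_, h⟩⟩
    simp [inst, mkG, verts]; omega
  have e2 : (· ∈ verts (nv φ) φ.length) = Val (nv φ) φ.length := funext fun _ => propext mem_verts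
  rw [e, sat3_iff_litAt]
  constructor
  · rintro ⟨a, ha⟩
    choose! j hj using ha
    refine of_fp (X := (·.1 = 0)) (Y := (·.1 = 1)) nodup_verts (e2 ▸ complete (a := fun i => (a i).toNat)
      (c := fun k => (litAt φ (3 * k + j k)).1) (fun i => Bool.toNat_lt _) fun k hk => ?_) fun i => ?_
    · unfold pl; split_ifs <;> omega
    · have := hj k hk
      refine ⟨lt_nv (by omega), ?_⟩
      simp only [occ, List.any_eq_true, List.mem_range, decide_eq_true_eq]
      refine ⟨j k, this.1, Prod.ext rfl ?_⟩
      rw [this.2]; cases (litAt φ (3 * k + j k)).2 <;> rfl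
  · intro h
    obtain ⟨f, l, h⟩ := fp_of (X := (·.1 = 0)) (Y := (·.1 = 1)) nodup_verts h
    obtain ⟨a, ha⟩ := sound (e2 ▸ h)
    refine ⟨fun i => decide (a i = 0), fun k hk => ?_⟩
    obtain ⟨i, -, s, hs, ho, h1, h2⟩ := ha k hk
    simp only [occ, List.any_eq_true, List.mem_range, decide_eq_true_eq] at ho
    obtain ⟨j, hj, ho⟩ := ho
    refine ⟨j, hj, ?_⟩
    rw [ho]; simp only [decide_eq_decide]; omega

end Pool.Agent.H38.Odd
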