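import Pool.Agent.H38.Odd.Defs
import Pool.Agent.H38.Sac.Gen
import Pool.Agent.H38.NP.Clos
import Pool.Agent.H36.Gr

/-!
NP-hardness of the disjoint odd paths problem.
-/

namespace Pool.Agent.H38.Odd

open Pool.Agent.H38.NP Pool.Agent.H36.Gr

def FP {T : Type} (A : T → T → Prop) (V X Y : T → Prop) (k : ℕ) (f : Fin k → ℕ → T) (l : Fin k → ℕ) :
    Prop :=
  (∀ i, l i % 2 = 1 ∧ X (f i 0) ∧ Y (f i (l i)) ∧ (∀ t ≤ l i, V (f i t)) ∧
    (∀ t < l i, A (f i t) (f i (t + 1))) ∧ (∀ s ≤ l i, ∀ t ≤ l i, f i s = f i t → s = t) ∧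
    ∀ t, 0 < t → t < l i → ¬ X (f i t) ∧ ¬ Y (f i t)) ∧
  ∀ i j, i ≠ j → ∀ s t, 0 < s → s < l i → 0 < t → t < l j → f i s ≠ f j t

section
variable {T : Type} [Inhabited T] {U : List T} (hU : U.Nodup) {r : T → T → Bool} {X Y : T → Prop} {k}
include hU

theorem fp_of (h : OddPaths (RG U r) k {v | X (code U v)} {v | Y (code U v)}) :
    ∃ f l, FP (GC r).Adj (· ∈ U) X Y k f l := by
  obtain ⟨x, y, p, h1, h2⟩ := h
  have inj := fun i => (h1 i).1.getVert_injOn
  have inn : ∀ i t, 0 < t → t < (p i).length → Inner (p i) ((p i).getVert t) := fun i t a b =>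
    ⟨(p i).getVert_mem_support t,
      fun e => by have := inj i b.le (Nat.zero_le _) (by simpa using e); omega,
      fun e => by have := inj i b.le (le_refl (p i).length) (by simpa using e); omega⟩
  refine ⟨fun i t => code U ((p i).getVert t), fun i => (p i).length, fun i =>
    ⟨Nat.odd_iff.1 (h1 i).2.1, by simpa using (h1 i).2.2.1, by simpa using (h1 i).2.2.2.1,
      fun t _ => code_mem _ _, fun t ht => (RG_adj hU).1 ((p i).adj_getVert_succ ht),
      fun s hs t ht e => inj i hs ht (code_inj hU e), fun t a b => (h1 i).2.2.2.2 _ (inn i t a b)⟩,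
    fun i j hij s t a b c d e => (h2 i j hij).2 _ ⟨inn i s a b, code_inj hU e ▸ inn j t c d⟩⟩

theorem of_fp {f l} (h : FP (GC r).Adj (· ∈ U) X Y k f l) (h2 : ∀ i, 1 < l i) :
    OddPaths (RG U r) k {v | X (code U v)} {v | Y (code U v)} := by
  classical
  obtain ⟨h, h'⟩ := h
  have : ∀ i t, ∃ v, t ≤ l i → code U v = f i t := fun i t => by
    by_cases e : t ≤ l i
    · exact (code_surj ((h i).2.2.2.1 t e)).imp fun _ h _ => h
    · exact (code_surj ((h i).2.2.2.1 0 (by omega))).imp fun _ _ h => absurd h e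
  choose g hg using this
  choose p p1 p2 using fun i => Sac.mk_walk (G := RG U r) (g i) (l i) fun t ht =>
    (RG_adj hU).2 (by rw [hg i t ht.le, hg i _ ht]; exact (h i).2.2.2.2.1 t ht)
  have inn : ∀ i v, Inner (p i) v → ∃ t, 0 < t ∧ t < l i ∧ code U v = f i t := by
    rintro i v ⟨a, b, c⟩
    rw [p1] at a
    obtain ⟨t, ht, rfl⟩ := List.mem_map.1 a
    have ht : t ≤ l i := by simpa [Nat.lt_succ_iff] using ht
    exact ⟨t, Nat.pos_of_ne_zero fun e => b (by rw [e]), lt_of_le_of_ne ht fun e => c (by rw [e]),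
      hg i t ht⟩
  refine ⟨_, _, p, fun i => ⟨(SimpleGraph.Walk.isPath_def _).2 ?_, ?_, ?_, ?_, fun v hv => ?_⟩,
    fun i j hij => ⟨fun e => ?_, fun v ⟨a, b⟩ => ?_⟩⟩
  · rw [p1]
    exact List.Nodup.map_on (fun s hs t ht e => (h i).2.2.2.2.2.1 s (by simpa [Nat.lt_succ_iff] using hs)
      t (by simpa [Nat.lt_succ_iff] using ht) (by
        rw [← hg i s (by simpa [Nat.lt_succ_iff] using hs),
          ← hg i t (by simpa [Nat.lt_succ_iff] using ht), e])) List.nodup_range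
  · rw [← (p i).length_edges, p2, Nat.odd_iff]; simpa using (h i).1
  · simpa [hg] using (h i).2.1
  · simpa [hg] using (h i).2.2.1
  · obtain ⟨t, a, b, e⟩ := inn i v hv
    simpa [e] using (h i).2.2.2.2.2.2 t a b
  · have e1 : s(g i 0, g i 1) ∈ (p j).edges := by
      change _ ∈ (p j).edgeSet
      rw [← e]; change _ ∈ (p i).edges
      rw [p2]; exact List.mem_map.2 ⟨0, by have := h2 i; simp; omega, rfl⟩
    have e2 := (p j).snd_mem_support_of_mem_edges e1
    rw [p1] at e2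
    obtain ⟨t, ht, e3⟩ := List.mem_map.1 e2
    have ht : t ≤ l j := by simpa [Nat.lt_succ_iff] using ht
    have e4 : f i 1 = f j t := by rw [← hg j t ht, e3, hg i 1 (h2 i).le]
    have := (h i).2.2.2.2.2.2 1 (by omega) (h2 i)
    refine h' i j hij 1 t (by omega) (h2 i) (Nat.pos_of_ne_zero ?_) (lt_of_le_of_ne ht ?_) e4
    · rintro rfl; exact this.1 (e4 ▸ (h j).2.1)
    · rintro rfl; exact this.2 (e4 ▸ (h j).2.2.1)
  · obtain ⟨s, a1, a2, a3⟩ := inn i v a
    obtain ⟨t, b1, b2, b3⟩ := inn j v b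
    exact h' i j hij s t a1 a2 b1 b2 (a3.symm.trans b3)
end

abbrev T3 := ℕ × ℕ × ℕ

def Rel (N m : ℕ) (oc : ℕ → ℕ → ℕ → Bool) (x y : T3) : Prop :=
  (x.1 < 2 ∧ y = (x.1 + 2, x.2.1, 0)) ∨ (x.1 = 2 ∧ 4 ≤ y.1 ∧ y.2 = (x.2.1, 0)) ∨
  (4 ≤ x.1 ∧ y = (x.1, x.2.1, x.2.2 + 1)) ∨ (4 ≤ x.1 ∧ x.2.2 = 2 * m + 1 ∧ y = (3, x.2.1, 0)) ∨
  ((x.1 = 2 ∨ x.1 = 3) ∧ N ≤ x.2.1 ∧ 4 ≤ y.1 ∧ y.2.2 + 1 = 2 * (x.2.1 - N) + x.1 ∧
    oc y.2.1 (y.1 - 4) (x.2.1 - N) = true)

instance (N m oc x y) : Decidable (Rel N m oc x y) := by unfold Rel; infer_instance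

def rel (N m : ℕ) (oc : ℕ → ℕ → ℕ → Bool) (x y : T3) : Bool := decide (Rel N m oc x y)

def Val (N m : ℕ) (x : T3) : Prop :=
  (x.1 < 4 ∧ x.2.1 < N + m ∧ x.2.2 = 0) ∨ (4 ≤ x.1 ∧ x.1 < 6 ∧ x.2.1 < N ∧ x.2.2 < 2 * m + 2)

instance (N m x) : Decidable (Val N m x) := by unfold Val; infer_instance

variable {N m : ℕ} {oc : ℕ → ℕ → ℕ → Bool}

theorem adj_iff {x y} : (GC (rel N m oc)).Adj x y ↔ x ≠ y ∧ (Rel N m oc x y ∨ Rel N m oc y x) := by
  simp [GC_adj, rel]

def col (N : ℕ) (x : T3) : ℕ :=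
  if 4 ≤ x.1 then x.2.2 else (if x.2.1 < N then 0 else 1) + (if x.1 = 1 ∨ x.1 = 2 then 1 else 0)

theorem col_rel {x y} (hx : Val N m x) (hy : Val N m y) (h : Rel N m oc x y) :
    (col N x + col N y) % 2 = 1 := by
  obtain ⟨a, b, c⟩ := x
  obtain ⟨a', b', c'⟩ := y
  simp only [Rel, Val, col, Prod.mk.injEq] at *
  rcases h with h | h | h | h | h <;> split_ifs <;> omega

theorem nb0 {a q c y} (ha : a < 2) (h : (GC (rel N m oc)).Adj (a, q, c) y) : y = (a + 2, q, 0) := by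
  obtain ⟨a', b', c'⟩ := y
  simp only [adj_iff, Rel, Prod.mk.injEq] at *
  omega

theorem nb2 {q y} (hy : Val N m y) (h : (GC (rel N m oc)).Adj (2, q, 0) y) : y = (0, q, 0) ∨
    (q < N ∧ ∃ s < 2, y = (4 + s, q, 0)) ∨
    (N ≤ q ∧ ∃ i < N, ∃ s < 2, oc i s (q - N) = true ∧ y = (4 + s, i, 2 * (q - N) + 1)) := by
  obtain ⟨a, b, c⟩ := y
  simp only [adj_iff, Rel, Val, Prod.mk.injEq] at *
  rcases h with ⟨-, (h | h | h | h | h) | (h | h | h | h | h)⟩
  any_goals omega
  · exact .inr (.inl ⟨by omega, a - 4, by omega⟩)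
  · exact .inr (.inr ⟨by omega, b, by omega, a - 4, by omega, h.2.2.2.2, by omega⟩)

theorem nb4 {s q w y} (hw : w < 2 * m + 1) (hy : Val N m y) (h : (GC (rel N m oc)).Adj (4 + s, q, w) y) :
    y = (4 + s, q, w + 1) ∨ (0 < w ∧ y = (4 + s, q, w - 1)) ∨ (w = 0 ∧ y = (2, q, 0)) ∨
      ∃ j, N ≤ j ∧ (y = (2, j, 0) ∨ y = (3, j, 0)) := by
  obtain ⟨a, b, c⟩ := y
  simp only [adj_iff, Rel, Val, Prod.mk.injEq] at *
  rcases h with ⟨-, (h | h | h | h | h) | (h | h | h | h | h)⟩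
  any_goals omega
  exact .inr (.inr (.inr ⟨b, by omega⟩))

theorem sound {f l} (h : FP (GC (rel N m oc)).Adj (Val N m) (·.1 = 0) (·.1 = 1) (N + m) f l) :
    ∃ a : ℕ → ℕ, ∀ j < m, ∃ i < N, ∃ s < 2, oc i s j = true ∧ a i ≠ s ∧ a i < 2 := by
  obtain ⟨h, h'⟩ := h
  choose h1 h2 h3 h4 h5 h6 h7 using h
  have e0 : ∀ i, f i 1 = (2, (f i 0).2.1, 0) ∧ 1 < l i := fun i => by
    have := h1 i
    have e : f i 1 = (2, (f i 0).2.1, 0) := by
      have := h5 i 0 (by omega)
      have := nb0 (a := (f i 0).1) (by have := h2 i; omega) this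
      rwa [h2 i] at this
    refine ⟨e, lt_of_le_of_ne (by omega) fun e' => ?_⟩
    have := h3 i; rw [← e', e] at this; simp at this
  have e1 : ∀ i, f i (l i - 1) = (3, (f i (l i)).2.1, 0) := fun i => by
    have := (e0 i).2
    have := (h5 i (l i - 1) (by omega)).symm
    rw [show l i - 1 + 1 = l i by omega] at this
    have := nb0 (a := (f i (l i)).1) (by have := h3 i; omega) this
    rwa [h3 i] at this
  have sj : ∀ (g : Fin (N + m) → ℕ) (a : ℕ), a < 4 → (∀ i, 0 < g i ∧ g i < l i ∧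
      f i (g i) = (a, (f i (g i)).2.1, 0)) → ∀ i t q, 0 < t → t < l i → f i t = (a, q, 0) → t = g i := by
    intro g a ha hg i t q t1 t2 e
    have b : ∀ i, (f i (g i)).2.1 < N + m := fun i => by
      have := h4 i (g i) (hg i).2.1.le; rw [(hg i).2.2] at this; simp only [Val] at this; omega
    obtain ⟨j, hj⟩ := Finite.surjective_of_injective (f := fun i => (⟨_, b i⟩ : Fin (N + m)))
      (fun i j e => by_contra fun n => h' i j n _ _ (hg i).1 (hg i).2.1 (hg j).1 (hg j).2.1 (by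
        rw [(hg i).2.2, (hg j).2.2, Fin.mk.inj e])) ⟨q, by
        have := h4 i t t2.le; rw [e] at this; simp only [Val] at this; omega⟩
    have e' : f i t = f j (g j) := by rw [e, (hg j).2.2, Fin.mk.inj hj]
    obtain rfl : i = j := by_contra fun n => h' i j n _ _ t1 t2 (hg j).1 (hg j).2.1 e'
    exact h6 i _ t2.le _ (hg i).2.1.le e'
  have sa := sj (fun _ => 1) 2 (by omega) fun i => ⟨by omega, (e0 i).2, by rw [(e0 i).1]⟩
  have sb := sj (fun i => l i - 1) 3 (by omega) fun i =>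
    ⟨by have := (e0 i).2; omega, by have := (e0 i).2; omega, by rw [e1 i]⟩
  have par : ∀ i t, t ≤ l i → (col N (f i t) + t + col N (f i 0)) % 2 = 0 := fun i t ht => by
    induction t with
    | zero => omega
    | succ t ih =>
      have := ih (by omega)
      rcases (adj_iff.1 (h5 i t ht)).2 with h | h
      · have := col_rel (h4 i t (by omega)) (h4 i _ ht) h; omega
      · have := col_rel (h4 i _ ht) (h4 i t (by omega)) h; omega
  have va : ∀ i, (f i 0).2.1 < N → ∃ s < 2, ∀ w ≤ 2 * m + 1,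
      w + 2 < l i ∧ f i (w + 2) = (4 + s, (f i 0).2.1, w) := fun i hi => by
    have hl := (e0 i).2
    have ht : (f i (l i)).2.1 < N := by
      have := par i _ le_rfl
      have := h1 i
      by_contra hc
      simp [col, h2 i, h3 i, hi, hc] at *; omega
    have nl : ∀ t ≤ l i, 2 ≤ (f i t).1 → t < l i := fun t a b =>
      lt_of_le_of_ne a fun e => by have := h3 i; rw [e] at b; omega
    rcases nb2 (h4 i 2 hl) ((e0 i).1 ▸ h5 i 1 hl) with e | ⟨-, s, hs, e⟩ | e
    · have := h6 i 2 hl 0 (by omega) (by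
        rw [e]; have := h4 i 0 (by omega); have := h2 i; simp only [Val] at *; ext <;> simp <;> omega)
      omega
    · refine ⟨s, hs, fun w hw => ?_⟩
      induction w using Nat.strong_induction_on with
      | _ w ih =>
        rcases w with _ | w
        · exact ⟨nl _ hl (by simp [e]; omega), e⟩
        obtain ⟨a, b⟩ := ih w (by omega) (by omega)
        rcases nb4 (by omega) (h4 i (w + 3) a) (b ▸ h5 i _ a) with e | ⟨c, e⟩ | ⟨c, e⟩ | ⟨j, c, e | e⟩
        · exact ⟨nl _ a (by simp [e]; omega), e⟩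
        · have := h6 i _ a _ (ih (w - 1) (by omega) (by omega)).1.le
            (e.trans (ih (w - 1) (by omega) (by omega)).2.symm)
          omega
        · have := h6 i _ a 1 hl.le (e.trans (e0 i).1.symm); omega
        · have := sa i _ j (by omega) (nl _ a (by simp [e])) e; omega
        · have := sb i _ j (by omega) (nl _ a (by simp [e])) e
          have e' := e1 i
          rw [← this, e] at e'; simp at e'; omega
    · omega
  choose! σ hσ' hσ using va
  have b : ∀ i, (f i 0).2.1 < N + m := fun i => by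
    have := h4 i 0 (by omega); have := h2 i; simp only [Val] at *; omega
  have su := Finite.surjective_of_injective (f := fun i => (⟨_, b i⟩ : Fin (N + m)))
    fun i j e => by_contra fun n => h' i j n 1 1 (by omega) (e0 i).2 (by omega) (e0 j).2 (by
      rw [(e0 i).1, (e0 j).1, Fin.mk.inj e])
  choose g hg using su
  refine ⟨fun i => if h : i < N then σ (g ⟨i, by omega⟩) else 0, fun j hj => ?_⟩
  have e := Fin.mk.inj (hg ⟨N + j, by omega⟩)
  generalize g ⟨N + j, by omega⟩ = u at e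
  have hl := (e0 u).2
  rcases nb2 (h4 u 2 hl) ((e0 u).1 ▸ h5 u 1 hl) with e' | e' | ⟨-, i, hi, s, hs, ho, e'⟩
  · have := h6 u 2 hl 0 (by omega) (by
      rw [e']; have := h4 u 0 (by omega); have := h2 u; simp only [Val] at *; ext <;> simp <;> omega)
    omega
  · omega
  · refine ⟨i, hi, s, hs, by simpa [e] using ho, ?_⟩
    simp only [dif_pos hi]
    have e2 := Fin.mk.inj (hg ⟨i, by omega⟩)
    generalize g ⟨i, by omega⟩ = v at e2
    refine ⟨?_, hσ' v (by omega)⟩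
    rintro rfl
    obtain ⟨c, d⟩ := hσ v (by omega) (2 * j + 1) (by omega)
    refine h' u v (by rintro rfl; omega) 2 _ (by omega) (lt_of_le_of_ne hl fun e3 => ?_) (by omega) c
      (by rw [e', d, e, e2]; simp)
    have := h3 u; rw [← e3, e'] at this; simp at this; omega

end Pool.Agent.H38.Odd
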